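import Pool.Agent.H59.LIN.Targets

set_option autoImplicit false

open Finset Polynomial

namespace Pool.Agent.H95.LIN

open Pool.Agent.H59.LIN

theorem Dif_sum {α : Type} [DecidableEq α] (A : Finset α) (L : Finset ℕ)
    (F : ℕ → (α → Bool) → ℤ) (ε : α → Bool) :
    Dif A (fun ε => ∑ l ∈ L, F l ε) ε = ∑ l ∈ L, Dif A (F l) ε := by
  unfold Dif
  rw [Finset.sum_comm]
  exact Finset.sum_congr rfl fun S _ => Finset.mul_sum _ _ _

theorem cb_sum {α : Type} [Fintype α] {n : ℕ} (L : Finset ℕ) (v : ℕ → Wd n → ℤ) (w : SWd n)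
    (t : α → ℕ) : cb (fun u => ∑ l ∈ L, v l u) w t = fun ε => ∑ l ∈ L, cb (v l) w t ε := rfl

/-- the general case: a sum of coefficients -/
theorem bas_sum (hSYM : Pool.Agent.H59.LIN.T_SYM) (T : (n : ℕ) → Wd n → KK) (hT : Skn sK dK T)
    (L : Finset ℕ) (m i : ℕ → ℕ) (M : ℕ) (hm : ∀ l ∈ L, m l ≤ M) :
    KInv (fun n w => ∑ l ∈ L, pc T (m l) (i l) n w) ∧
    Dgr (fun n w => ∑ l ∈ L, pc T (m l) (i l) n w) M ∧
    ∀ n (w : SWd n) d (D : CD d) (t : Fin d → ℕ), Knot w → Function.Injective t →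
      gauss w = List.ofFn (fun x => t (D x).1) → ∀ A : Finset (Fin d), IsDb w t →
        ((sy (cb (fun u => ∑ l ∈ L, pc T (m l) (i l) n u) w t) M A : ℤ) : ℚ) =
          ∑ l ∈ L.filter (fun l => m l = M), Pool.Agent.H59.LIN.eta D M (i l) A := by
  have h1 := fun l => hSYM T hT (m l) (i l)
  refine ⟨?_, ?_, ?_⟩
  · intro x y hxy hx
    exact Finset.sum_congr rfl fun l _ => (h1 l).1 x y hxy hx
  · intro n w d t hw ht hdb A ε hA
    rw [cb_sum L (fun l u => pc T (m l) (i l) n u), Dif_sum A L (fun l => cb (pc T (m l) (i l) n) w t)]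
    exact Finset.sum_eq_zero fun l hl =>
      (h1 l).2.1 n w d t hw ht hdb A ε (lt_of_le_of_lt (hm l hl) hA)
  · intro n w d D t hw ht hg A hdb
    rw [cb_sum L (fun l u => pc T (m l) (i l) n u)]
    unfold sy
    by_cases hA : A.card = M
    · rw [if_pos hA, Dif_sum A L (fun l => cb (pc T (m l) (i l) n) w t), Int.cast_sum,
        Finset.sum_filter]
      refine Finset.sum_congr rfl fun l hl => ?_
      by_cases hl2 : m l = M
      · rw [if_pos hl2]
        have h2 := (h1 l).2.2 n w d D t hw ht hg A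
        unfold sy at h2
        rw [if_pos (by rw [hA, hl2])] at h2
        rw [h2, hl2]
      · rw [if_neg hl2, (h1 l).2.1 n w d t hw ht hdb A _ (by have := hm l hl; omega), Int.cast_zero]
    · rw [if_neg hA, Int.cast_zero]
      refine (Finset.sum_eq_zero fun l _ => ?_).symm
      unfold Pool.Agent.H59.LIN.eta
      rw [if_neg hA]

theorem sum_SF {α : Type} [DecidableEq α] (L : Finset ℕ) (F : ℕ → SF α ℚ) (A : Finset α) :
    (∑ l ∈ L, F l) A = ∑ l ∈ L, F l A := by
  induction L using Finset.induction_on with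
  | empty => rfl
  | insert l L hl ih => rw [Finset.sum_insert hl, Finset.sum_insert hl, SF.add_def, ih]

theorem pf_FB1 (hSYM : Pool.Agent.H59.LIN.T_SYM) (hCMC : Pool.Agent.H59.LIN.T_CMC) :
    Pool.Agent.H59.LIN.T_FB1 := by
  intro T hT
  refine ⟨fun b hb => ?_, ?_⟩
  · obtain ⟨h1, h2, h3⟩ := bas_sum hSYM T hT (Finset.range (b.1 / 2 + 1)) (fun _ => mb b)
      (fun l => b.1 - 2 * l) (mb b) (fun _ _ => le_rfl)
    refine ⟨_, h1, h2, fun n w d D t hw ht hg A => ?_⟩
    rw [h3 n w d D t hw ht hg A (hCMC.1 n w d D t hw ht hg), Finset.filter_true_of_mem (by simp)]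
    unfold phi
    rw [if_neg (by omega), sum_SF]
  · obtain ⟨h1, h2, h3⟩ := bas_sum hSYM T hT (Finset.range (2 * 1 + 1)) (fun m => m)
      (fun m => 2 * 1 - m) 2 (fun m hm => by have := Finset.mem_range.1 hm; omega)
    refine ⟨h1, h2, fun n w d D t hw ht hg A => ?_⟩
    have h4 := h3 n w d D t hw ht hg A (hCMC.1 n w d D t hw ht hg)
    have h5 : (Finset.range (2 * 1 + 1)).filter (fun m => m = 2) = {2} := by decide
    rw [h5, Finset.sum_singleton] at h4
    have h6 : phi D (0, 0) = Pool.Agent.H59.LIN.eta D 2 0 := by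
      unfold phi
      rw [if_pos rfl, if_pos rfl]
    rw [h6]
    exact h4

end Pool.Agent.H95.LIN
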