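import Pool.Agent.H59.LIN.Targets

set_option autoImplicit false

open Finset Polynomial

namespace Pool.Agent.H95.LIN

open Pool.Agent.H59.LIN

theorem circ_pos {d : ℕ} (hd : 0 < d) (D : CD d) (B : Finset (Fin d)) : 1 ≤ circ D B := by
  unfold circ ncl
  have h1 : Nonempty (Quot fun x y : Fin (2 * d) => y = finRotate (2 * d) (jmp D B x)) :=
    ⟨Quot.mk _ ⟨0, by omega⟩⟩
  have h2 : Finite (Quot fun x y : Fin (2 * d) => y = finRotate (2 * d) (jmp D B x)) :=
    Finite.of_surjective (Quot.mk _) Quot.mk_surjective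
  exact Nat.card_pos

theorem circ_bound (hCIR : T_CIR) {d : ℕ} (hd : 0 < d) (D : CD d) (B : Finset (Fin d)) :
    circ D B ≤ B.card + 1 ∧ Even (circ D B + 1 + B.card) := by
  obtain ⟨h0, h1⟩ := hCIR d D hd
  induction B using Finset.induction_on with
  | empty => rw [h0]; exact ⟨by simp, ⟨1, by simp⟩⟩
  | insert c B hc ih =>
    obtain ⟨i1, i2⟩ := ih
    rw [Finset.card_insert_of_notMem hc]
    rcases h1 B c hc with h | h
    · rw [h]
      refine ⟨by omega, ?_⟩
      obtain ⟨k, hk⟩ := i2
      exact ⟨k + 1, by omega⟩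
    · have h2 := circ_pos hd D (insert c B)
      refine ⟨by omega, ?_⟩
      obtain ⟨k, hk⟩ := i2
      exact ⟨k, by omega⟩

theorem pf_HCO (hCIR : Pool.Agent.H59.LIN.T_CIR) : Pool.Agent.H59.LIN.T_HCO := by
  intro d D A
  have hempty : hh D (∅ : Finset (Fin d)) = 1 := by
    unfold hh
    rw [Finset.powerset_empty, Finset.sum_singleton]
    have h1 : circ D ∅ - 1 = 0 := by
      rcases Nat.eq_zero_or_pos d with hd | hd
      · subst hd
        unfold circ ncl
        have : IsEmpty (Fin (2 * 0)) := ⟨fun x => by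
          have := x.2
          omega⟩
        have h2 : IsEmpty (Quot fun x y : Fin (2 * 0) => y = finRotate (2 * 0) (jmp D ∅ x)) :=
          ⟨fun q => by
            obtain ⟨x, hx⟩ := Quot.exists_rep q
            exact this.false x⟩
        rw [Nat.card_of_isEmpty]
      · rw [(hCIR d D hd).1]
    rw [h1]
    simp
  refine ⟨fun h => by rw [h]; exact hempty, fun h => ?_, fun j hj => ?_⟩
  · unfold hh
    rw [Polynomial.eval_finsetSum]
    have h1 : ∀ B ∈ A.powerset, ((-X : ℤ[X]) ^ (A.card - B.card) * X ^ (circ D B - 1)).eval 1 =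
        (-1) ^ A.card * (-1) ^ B.card := by
      intro B hB
      have h2 : B.card ≤ A.card := Finset.card_le_card (Finset.mem_powerset.1 hB)
      rw [Polynomial.eval_mul, Polynomial.eval_pow, Polynomial.eval_pow, Polynomial.eval_neg,
        Polynomial.eval_X, one_pow, mul_one]
      obtain ⟨k, hk⟩ := Nat.exists_eq_add_of_le h2
      rw [hk, Nat.add_sub_cancel_left, pow_add]
      have h3 : ((-1 : ℤ) ^ B.card) * (-1) ^ B.card = 1 := by
        rw [← mul_pow]
        simp
      calc (-1 : ℤ) ^ k = ((-1 : ℤ) ^ B.card * (-1) ^ B.card) * (-1) ^ k := by rw [h3, one_mul]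
        _ = _ := by ring
    rw [Finset.sum_congr rfl h1, ← Finset.mul_sum,
      Finset.sum_powerset_neg_one_pow_card_of_nonempty (Finset.nonempty_iff_ne_empty.2 h), mul_zero]
  · rcases Nat.eq_zero_or_pos d with hd | hd
    · subst hd
      have hA : A = ∅ := by
        ext x
        exact x.elim0
      rw [hA, hempty] at hj
      rw [hA]
      have h1 : j = 0 := by
        by_contra h2
        exact hj (by rw [Polynomial.coeff_one, if_neg h2])
      rw [h1]
      simp
    · unfold hh at hj
      rw [Polynomial.finsetSum_coeff] at hj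
      obtain ⟨B, hB, hB0⟩ := Finset.exists_ne_zero_of_sum_ne_zero hj
      have h2 : B.card ≤ A.card := Finset.card_le_card (Finset.mem_powerset.1 hB)
      obtain ⟨h3, h4⟩ := circ_bound hCIR hd D B
      have h5 := circ_pos hd D B
      have h6 : (-X : ℤ[X]) ^ (A.card - B.card) * X ^ (circ D B - 1) =
          Polynomial.C ((-1) ^ (A.card - B.card)) * X ^ (A.card - B.card + (circ D B - 1)) := by
        rw [neg_pow, pow_add]
        simp only [map_pow, map_neg, map_one]
        ring
      rw [h6, Polynomial.coeff_C_mul, Polynomial.coeff_X_pow] at hB0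
      have h7 : j = A.card - B.card + (circ D B - 1) := by
        by_contra h8
        exact hB0 (by rw [if_neg h8, mul_zero])
      refine ⟨by omega, ?_⟩
      obtain ⟨k, hk⟩ := h4
      refine ⟨A.card + k - B.card - 1, by omega⟩

end Pool.Agent.H95.LIN
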